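import Pool.Agent.Helper16.SD.GoalsJ
import Pool.Agent.Helper95.SD.J_RAT
import Pool.Agent.Helper42.RD.VAL

/-!
# Project SD (MP_fc6b1e_nt), packet J_ASM: the annihilator of the ray classes.
-/

set_option autoImplicit false

namespace Pool.Agent.Helper35.SD.J_ASM

open NumberField Module IsDedekindDomain
open Pool.Agent.Helper51.SigLeo Pool.Agent.Helper51.RP Pool.Agent.Helper51.REC
open Pool.Agent.Helper16.SD

/-- the units of the integers have norm one. -/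
theorem norm_un {p : ℕ} [Fact p.Prime] {F : Type} [Field F] [NumberField F] (τ : F →+* ℂ_[p])
    (u : (𝓞 F)ˣ) : ‖τ ((un u : Fˣ) : F)‖ = 1 := by
  have h1 : ‖τ ((un u : Fˣ) : F)‖ ≤ 1 := Pool.Agent.Helper49.RSV.norm_int_le τ (u : 𝓞 F)
  have h2 : ‖τ ((un u⁻¹ : Fˣ) : F)‖ ≤ 1 :=
    Pool.Agent.Helper49.RSV.norm_int_le τ ((u⁻¹ : (𝓞 F)ˣ) : 𝓞 F)
  have h3 : ‖τ ((un u : Fˣ) : F)‖ * ‖τ ((un u⁻¹ : Fˣ) : F)‖ = 1 := by
    rw [← norm_mul, ← map_mul, ← Units.val_mul]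
    have h4 : un u * un u⁻¹ = (1 : Fˣ) := by
      unfold un
      rw [← map_mul, mul_inv_cancel, map_one]
    rw [h4, Units.val_one, map_one, norm_one]
  nlinarith [norm_nonneg (τ ((un u : Fˣ) : F)), norm_nonneg (τ ((un u⁻¹ : Fˣ) : F))]

/-- the value of `τ` on units. -/
theorem norm_zpow_one {p : ℕ} [Fact p.Prime] {F : Type} [Field F] (τ : F →+* ℂ_[p])
    (x : Fˣ) (hx : ‖τ (x : F)‖ = 1) (m : ℤ) : ‖τ ((x ^ m : Fˣ) : F)‖ = 1 := by
  rw [Units.val_zpow_eq_zpow_val, map_zpow₀, norm_zpow, hx, one_zpow]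

theorem norm_prod_one {p : ℕ} [Fact p.Prime] {F ι : Type} [Field F] (τ : F →+* ℂ_[p])
    (s : Finset ι) (x : ι → Fˣ) (hx : ∀ i ∈ s, ‖τ (x i : F)‖ = 1) :
    ‖τ ((∏ i ∈ s, x i : Fˣ) : F)‖ = 1 := by
  classical
  induction s using Finset.induction_on with
  | empty => simp
  | insert a s ha ih =>
    rw [Finset.prod_insert ha, Units.val_mul, map_mul, norm_mul, hx a (by simp),
      ih (fun i hi => hx i (by simp [hi])), one_mul]

theorem t : Pool.Agent.Helper16.SD.J_ASM := by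
  classical
  intro hS hZ h1 h2 p hp K _ _ hsplit Lg F _ _ hcomm ν hν B hBne hInd e he
  obtain ⟨b₁, hb₁⟩ := hS p K hsplit Lg F hcomm ν hν B hInd e he
  obtain ⟨c, b₂, hc0, hcp, hnear⟩ := hZ p F Lg
  obtain ⟨n, hn0, hdv⟩ := h2 p K F
  obtain ⟨b₃, n', hn', hnn⟩ := Nat.exists_eq_pow_mul_and_not_dvd hn0.ne' p hp.out.ne_one
  have hp0 : (0 : ℝ) < p := by exact_mod_cast hp.out.pos
  refine ⟨b₁ + b₂ + b₃, fun k N ϑ hϑ W hW => ?_⟩
  obtain ⟨x, hx1, hx2⟩ := hdv W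
  have hxu : ∀ τ ∈ (above B : Set (F →+* ℂ_[p])), ‖τ (x : F)‖ = 1 := fun τ hτ => hx1 τ (hW τ hτ)
  obtain ⟨a, u, ha, hsm⟩ := hb₁ x hxu N k
  obtain ⟨z, hz⟩ : ∃ z : Fˣ,
    z = (∏ h : F ≃ₐ[K] F, (hx h x) ^ ((p : ℤ) ^ b₁ * a h)) * un u := ⟨_, rfl⟩
  have hz1 : ∀ τ ∈ (above B : Set (F →+* ℂ_[p])), ‖τ (z : F)‖ = 1 := by
    intro τ hτ
    rw [hz, Units.val_mul, map_mul, norm_mul, norm_un, mul_one]
    refine norm_prod_one τ _ _ fun h _ => norm_zpow_one τ _ ?_ _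
    refine hxu (τ.comp (h : F →+* F)) ?_
    show (τ.comp (h : F →+* F)).comp (algebraMap K F) ∈ B
    have h3 : (τ.comp (h : F →+* F)).comp (algebraMap K F) = τ.comp (algebraMap K F) := by
      ext y
      show τ (h (algebraMap K F y)) = τ (algebraMap K F y)
      rw [h.commutes]
    rw [h3]
    exact hτ
  have hv := hϑ (z ^ (c * p ^ b₂)) (fun τ hτ => by
    obtain ⟨-, h4⟩ := hnear z τ (hz1 τ hτ)
    rw [Units.val_pow_eq_pow_val, map_pow, h4, map_pow, Pool.Agent.Helper95.SD.J_RAT.lg_pow,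
      norm_mul]
    have h5 := hsm τ hτ
    rw [← hz] at h5
    have h6 : ‖((c * p ^ b₂ : ℕ) : ℂ_[p])‖ ≤ 1 := by
      have h7 : ((c * p ^ b₂ : ℕ) : ℂ_[p]) = algebraMap ℚ_[p] ℂ_[p] ((c * p ^ b₂ : ℕ) : ℚ_[p]) := by
        rw [map_natCast]
      rw [h7, norm_algebraMap']
      exact IsUltrametricDist.norm_natCast_le_one ℚ_[p] _
    calc ‖((c * p ^ b₂ : ℕ) : ℂ_[p])‖ * ‖Lg.toFun (Units.map (τ : F →* ℂ_[p]) z)‖
        ≤ 1 * (1 / p : ℝ) ^ N := mul_le_mul h6 h5 (norm_nonneg _) zero_le_one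
      _ = (1 / p : ℝ) ^ N := one_mul _)
  obtain ⟨d1, d2, d3, d4⟩ := h1 F (ZMod (p ^ k)) ϑ
  have hd := d2 z ((c * p ^ b₂ : ℕ) : ℤ)
  rw [zpow_natCast, hv] at hd
  have hdz : dsum ϑ (z : F) =
      ∑ h : F ≃ₐ[K] F, (((p : ℤ) ^ b₁ * a h : ℤ) : ZMod (p ^ k)) * ((n : ZMod (p ^ k)) *
        ϑ (gP h W)) := by
    rw [hz, d1, d3, d4, add_zero]
    refine Finset.sum_congr rfl fun h _ => ?_
    rw [d2, hx2]
  have hae : ∀ h : F ≃ₐ[K] F, ((a h : ℤ) : ZMod (p ^ k)) = PadicInt.toZModPow k (e h) := by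
    intro h
    have h8 : PadicInt.toZModPow k (((a h : ℤ) : ℤ_[p]) - e h) = 0 := by
      rw [← RingHom.mem_ker, PadicInt.ker_toZModPow, Ideal.mem_span_singleton]
      exact ha h
    rw [map_sub, map_intCast, sub_eq_zero] at h8
    exact h8
  have hunit : IsUnit (((c * n' : ℕ) : ZMod (p ^ k))) := by
    rw [ZMod.isUnit_iff_coprime]
    refine Nat.Coprime.pow_right _ ?_
    rw [Nat.coprime_comm, Nat.Prime.coprime_iff_not_dvd hp.out]
    intro h9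
    rcases (Nat.Prime.dvd_mul hp.out).1 h9 with h9 | h9
    · exact hcp h9
    · exact hn' h9
  refine (hunit.mul_right_eq_zero).1 ?_
  refine Eq.trans ?_ hd.symm
  rw [hdz, Finset.mul_sum, Finset.mul_sum, Finset.mul_sum]
  refine Finset.sum_congr rfl fun h _ => ?_
  rw [← hae, hnn]
  push_cast
  ring

end Pool.Agent.Helper35.SD.J_ASM
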