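import Pool.Agent.Helper16.SD.GoalsJ
import Pool.Agent.Helper32.RP.LOB
import Pool.Agent.Helper42.RD.VAL

/-!
# Project SD (MP_fc6b1e_nt), packet J_DV2: elements whose divisor is a multiple of a prime.
-/

set_option autoImplicit false

namespace Pool.Agent.Helper35.SD.J_DV2

open NumberField Module IsDedekindDomain
open scoped nonZeroDivisors
open Pool.Agent.Helper51.RP Pool.Agent.Helper51.REC Pool.Agent.Helper42.RD
open Pool.Agent.Helper16.SD

variable {F : Type} [Field F] [NumberField F]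

theorem ordv_gen (W : HeightOneSpectrum (𝓞 F)) (n : ℕ) (r : 𝓞 F) (hr : r ≠ 0)
    (h : W.asIdeal ^ n = Ideal.span {r}) : ordv W (algebraMap (𝓞 F) F r) = n := by
  unfold ordv
  rw [HeightOneSpectrum.valuation_of_algebraMap, W.intValuation_eq_exp_neg_multiplicity hr, ← h,
    WithZero.log_exp, neg_neg]
  congr 1
  refine multiplicity_pow_self W.ne_bot ?_ n
  rw [Ideal.isUnit_iff]
  exact W.isPrime.ne_top

theorem pr_gP {K : Type} [Field K] [Algebra K F] (g : F ≃ₐ[K] F) (W : HeightOneSpectrum (𝓞 F)) :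
    Pool.Agent.Helper32.RP.pr g (gP g W) = W := by
  apply HeightOneSpectrum.ext
  ext x
  show (RingOfIntegers.mapRingEquiv (g⁻¹ : F ≃ₐ[K] F).toRingEquiv
    (Pool.Agent.Helper32.RP.eo g x)) ∈ W.asIdeal ↔ x ∈ W.asIdeal
  have h : RingOfIntegers.mapRingEquiv (g⁻¹ : F ≃ₐ[K] F).toRingEquiv
      (Pool.Agent.Helper32.RP.eo g x) = x := by
    apply RingOfIntegers.ext
    show (g⁻¹ : F ≃ₐ[K] F) (g (x : F)) = x
    rw [← AlgEquiv.mul_apply, inv_mul_cancel, AlgEquiv.one_apply]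
  rw [h]

theorem gP_pr {K : Type} [Field K] [Algebra K F] (g : F ≃ₐ[K] F) (W : HeightOneSpectrum (𝓞 F)) :
    gP g (Pool.Agent.Helper32.RP.pr g W) = W := by
  apply HeightOneSpectrum.ext
  ext x
  show (Pool.Agent.Helper32.RP.eo g (RingOfIntegers.mapRingEquiv (g⁻¹ : F ≃ₐ[K] F).toRingEquiv x))
    ∈ W.asIdeal ↔ x ∈ W.asIdeal
  have h : Pool.Agent.Helper32.RP.eo g
      (RingOfIntegers.mapRingEquiv (g⁻¹ : F ≃ₐ[K] F).toRingEquiv x) = x := by
    apply RingOfIntegers.ext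
    show g ((g⁻¹ : F ≃ₐ[K] F) (x : F)) = x
    rw [← AlgEquiv.mul_apply, mul_inv_cancel, AlgEquiv.one_apply]
  rw [h]

theorem ordv_g {K : Type} [Field K] [Algebra K F] (g : F ≃ₐ[K] F) (W : HeightOneSpectrum (𝓞 F))
    (x : F) : ordv W (g x) = ordv (Pool.Agent.Helper32.RP.pr g W) x := by
  unfold ordv
  rw [Pool.Agent.Helper32.RP.pr_val]

theorem t : Pool.Agent.Helper16.SD.J_DV2 := by
  classical
  intro p _ K F _ _ _ _
  have hpos : 0 < Fintype.card (ClassGroup (𝓞 F)) := Fintype.card_pos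
  refine ⟨Fintype.card (ClassGroup (𝓞 F)), hpos, fun W => ?_⟩
  set n := Fintype.card (ClassGroup (𝓞 F)) with hn
  have hw0 : W.asIdeal ∈ (Ideal (𝓞 F))⁰ := mem_nonZeroDivisors_of_ne_zero W.ne_bot
  have hw1 : W.asIdeal ^ n ∈ (Ideal (𝓞 F))⁰ := pow_mem hw0 n
  have h1 : (ClassGroup.mk0 ⟨W.asIdeal ^ n, hw1⟩ : ClassGroup (𝓞 F)) = 1 := by
    have : (⟨W.asIdeal ^ n, hw1⟩ : (Ideal (𝓞 F))⁰) = ⟨W.asIdeal, hw0⟩ ^ n := rfl
    rw [this, map_pow, hn, pow_card_eq_one]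
  obtain ⟨r, hr⟩ := (ClassGroup.mk0_eq_one_iff hw1).1 h1
  rw [Ideal.submodule_span_eq] at hr
  have hr0 : r ≠ 0 := by
    rintro rfl
    rw [Ideal.span_singleton_zero] at hr
    exact (mem_nonZeroDivisors_iff_ne_zero.1 hw1) hr
  have hrK : (algebraMap (𝓞 F) F r) ≠ 0 := by
    rw [Ne, FaithfulSMul.algebraMap_eq_zero_iff]
    exact hr0
  have hother : ∀ V : HeightOneSpectrum (𝓞 F), V ≠ W → r ∉ V.asIdeal := by
    intro V hV h3
    have h4 : W.asIdeal ^ n ≤ V.asIdeal := by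
      rw [hr, Ideal.span_singleton_le_iff_mem]
      exact h3
    have h5 : W.asIdeal ≤ V.asIdeal := V.isPrime.le_of_pow_le h4
    have h6 : W.asIdeal = V.asIdeal := W.isMaximal.eq_of_le V.isPrime.ne_top h5
    exact hV (HeightOneSpectrum.ext h6.symm)
  refine ⟨Units.mk0 _ hrK, fun τ hτ => ?_, fun R _ ϑ g => ?_⟩
  · rw [Units.val_mk0]
    have hne : wt p τ ≠ W := by
      rintro rfl
      apply hτ
      intro x
      show x ∈ Pool.Agent.Helper49.RSV.PI τ ↔ _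
      rw [Pool.Agent.Helper49.RSV.mem_PI]
    have h7 := hother _ hne
    exact norm_one_of_notMem p τ ⟨r, h7⟩
  · have h8 : ∀ V : HeightOneSpectrum (𝓞 F), V ≠ W → ordv V (algebraMap (𝓞 F) F r) = 0 := by
      intro V hV
      rw [ordv_eq_zero_iff V hrK, V.valuation_eq_one_iff_notMem]
      exact hother V hV
    have h9 : ((hx g (Units.mk0 _ hrK) : Fˣ) : F) = g (algebraMap (𝓞 F) F r) := rfl
    rw [h9]
    unfold dsum
    rw [finsum_eq_single _ (gP g W)]
    · rw [ordv_g, pr_gP, ordv_gen W n r hr0 hr, Int.cast_natCast]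
    · intro V hV
      rw [ordv_g, h8, Int.cast_zero, zero_mul]
      intro h10
      apply hV
      rw [← gP_pr g V, h10]

end Pool.Agent.Helper35.SD.J_DV2
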