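import Pool.Agent.Helper16.SD.GoalsJ
import Pool.Agent.Helper32.SD.J_DET
import Pool.Agent.Helper66.SD.J_F
import Pool.Agent.Helper35.SD.J_ASM

/-!
# Project SD (MP_fc6b1e_nt), packet J_SML: approximate relations.
-/

set_option autoImplicit false

namespace Pool.Agent.Helper35.SD.J_SML

open NumberField Module IsDedekindDomain
open Pool.Agent.Helper51.SigLeo Pool.Agent.Helper51.RP Pool.Agent.Helper51.REC
open Pool.Agent.Helper38.FD (Chr)
open Pool.Agent.Helper16.SD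

/-- additive functions on a subgroup. -/
theorem f_prod {A V ι : Type} [CommGroup A] [AddCommGroup V] (P : Subgroup A) (f : A → V)
    (hf : ∀ x ∈ P, ∀ y ∈ P, f (x * y) = f x + f y) (s : Finset ι) (x : ι → A)
    (hx : ∀ i, x i ∈ P) (n : ι → ℤ) :
    f (∏ i ∈ s, x i ^ n i) = ∑ i ∈ s, n i • f (x i) := by
  classical
  have h1 : f 1 = 0 := by
    have := hf 1 P.one_mem 1 P.one_mem
    rw [mul_one] at this
    exact left_eq_add.1 this
  let φ : P →* Multiplicative V :=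
    { toFun := fun x => Multiplicative.ofAdd (f x)
      map_one' := by
        show Multiplicative.ofAdd (f 1) = _
        rw [h1, ofAdd_zero]
      map_mul' := fun x y => by
        show Multiplicative.ofAdd (f ((x : A) * y)) = _
        rw [hf x x.2 y y.2, ofAdd_add] }
  have h2 : ∀ x ∈ P, ∀ n : ℤ, f (x ^ n) = n • f x := fun x hx n => by
    have := map_zpow φ ⟨x, hx⟩ n
    exact this
  induction s using Finset.induction_on with
  | empty => simpa using h1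
  | insert a s ha ih =>
    rw [Finset.prod_insert ha, Finset.sum_insert ha, hf _ (P.zpow_mem (hx a) _) _
      (P.prod_mem fun i _ => P.zpow_mem (hx i) _), h2 _ (hx a), ih]

section lemmas

variable {p : ℕ} [Fact p.Prime] {K F : Type} [Field K] [Field F] [Algebra K F]

/-- The group of the units at the embeddings above. -/
def PU (K : Type) [Field K] [Algebra K F] (τ : F →+* ℂ_[p]) : Subgroup Fˣ where
  carrier := {x | UAt K τ x}
  mul_mem' := fun {_ _} hx hy => Pool.Agent.Helper66.SD.J_F.UAt_mul hx hy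
  one_mem' := fun h => by simp
  inv_mem' := fun {x} hx h => by
    rw [Units.val_inv_eq_inv_val, map_inv₀, map_inv₀, norm_inv, hx h, inv_one]

/-- products of conjugates of units of the integers. -/
theorem exists_un {ι : Type} (s : Finset ι) (h : ι → (F ≃ₐ[K] F)) (ε : ι → (𝓞 F)ˣ)
    (n : ι → ℤ) : ∃ u : (𝓞 F)ˣ, un u = ∏ q ∈ s, (hx (h q) (un (ε q))) ^ n q := by
  have h1 : ∏ q ∈ s, (hx (h q) (un (ε q))) ^ n q ∈
      (Units.map ((algebraMap (𝓞 F) F : 𝓞 F →+* F) : 𝓞 F →* F)).range := by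
    refine Subgroup.prod_mem _ fun q _ => Subgroup.zpow_mem _ ?_ _
    exact ⟨Units.map (RingOfIntegers.mapRingHom ((h q : F ≃ₐ[K] F) : F →+* F)) (ε q),
      Units.ext rfl⟩
  obtain ⟨u, hu⟩ := h1
  exact ⟨u, hu⟩

theorem appr_norm (t : ℤ_[p]) (M : ℕ) :
    ‖(((PadicInt.appr t M : ℕ) : ℤ) : ℚ_[p]) - (t : ℚ_[p])‖ ≤ ((p : ℝ)⁻¹) ^ M := by
  have h1 := PadicInt.appr_spec M t
  rw [← PadicInt.norm_le_pow_iff_mem_span_pow] at h1
  have h2 : (((PadicInt.appr t M : ℕ) : ℤ) : ℚ_[p]) - (t : ℚ_[p]) =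
      -(((t - (PadicInt.appr t M : ℕ) : ℤ_[p]) : ℤ_[p]) : ℚ_[p]) := by
    push_cast
    ring
  rw [h2, norm_neg, ← PadicInt.norm_def]
  rw [zpow_neg, zpow_natCast] at h1
  rwa [inv_pow]

end lemmas

theorem t : J_F → J_DET → J_ALG → Pool.Agent.Helper16.SD.J_SML := by
  classical
  intro hF hD hA p hp K _ _ hsplit Lg F _ _ hcomm ν hν B hInd e he
  have hp1 : (1 : ℝ) < p := by exact_mod_cast hp.out.one_lt
  have hp0 : (0 : ℝ) < p := by linarith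
  have hsurj := AlgEquiv.restrictNormalHom_surjective (F := K) (K₁ := F) (AlgebraicClosure K)
  obtain ⟨nu, hnu⟩ : ∃ nu : (F ≃ₐ[K] F) →* ℂ_[p]ˣ,
      ∀ g, nu (AlgEquiv.restrictNormalHom F g) = ν g := by
    have hker : (AlgEquiv.restrictNormalHom (F := K) (K₁ := AlgebraicClosure K) F).ker ≤ ν.ker := by
      intro g hg
      rw [MonoidHom.mem_ker] at hg ⊢
      refine hν g fun x hx => ?_
      have h1 := AlgEquiv.restrictNormal_commutes g F ⟨x, hx⟩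
      have h2 : g.restrictNormal F = 1 := hg
      rw [h2] at h1
      exact h1.symm
    refine ⟨(AlgEquiv.restrictNormalHom F).liftOfSurjective hsurj ⟨ν, hker⟩, fun g => ?_⟩
    exact MonoidHom.liftOfRightInverse_comp_apply _ _ _ ⟨ν, hker⟩ g
  let _ : Fintype B := Fintype.ofFinite B
  have htt : ∀ i : B, ∃ τ : F →+* ℂ_[p], τ.comp (algebraMap K F) = i := by
    intro i
    let _ : Algebra K ℂ_[p] := (i : K →+* ℂ_[p]).toAlgebra
    refine ⟨((IsAlgClosed.lift : F →ₐ[K] ℂ_[p]) : F →+* ℂ_[p]), ?_⟩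
    ext x
    exact (IsAlgClosed.lift : F →ₐ[K] ℂ_[p]).commutes x
  choose tt htt using htt
  have hFi := fun i : B => hF p K F hsplit Lg (tt i)
  choose f cc C hadd heq hlg hchar hbd using hFi
  obtain ⟨ε, hε⟩ := hD p K Lg F ν nu hnu B hInd tt htt
  have hUε : ∀ i j, UAt K (tt i) (un (ε j)) := fun i j h =>
    Pool.Agent.Helper35.SD.J_ASM.norm_un ((tt i).comp (h : F →+* F)) (ε j)
  obtain ⟨b₁, hb₁⟩ := hA p (F ≃ₐ[K] F) hcomm B (fun i j g => f i (un (ε j)) g) e (by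
    intro ψ hψ
    obtain ⟨σ, hσ⟩ : ∃ σ : ℂ_[p] ≃ₐ[ℚ_[p]] ℂ_[p],
        ∀ g : AlgebraicClosure K ≃ₐ[K] AlgebraicClosure K,
          ((ψ (AlgEquiv.restrictNormalHom F g) : ℂ_[p]ˣ) : ℂ_[p]) = σ (ν g : ℂ_[p]ˣ) := by
      by_contra hcon
      exact hψ (he ψ hcon)
    have hσ' : ∀ h : F ≃ₐ[K] F, ((ψ h : ℂ_[p]ˣ) : ℂ_[p]) = σ (nu h : ℂ_[p]ˣ) := by
      intro h
      obtain ⟨g, rfl⟩ := hsurj h
      rw [hσ, hnu]
    choose R hR0 hR using fun i => hchar i nu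
    have hmat : (Matrix.of fun i j : B => ∑ g, ((ψ g : ℂ_[p]ˣ) : ℂ_[p]) *
          algebraMap ℚ_[p] ℂ_[p] (f i (un (ε j)) g)) =
        (σ : ℂ_[p] →+* ℂ_[p]).mapMatrix (Matrix.of fun i j : B => R i *
          (Matrix.of fun i j : B ↦ ∑ h : F ≃ₐ[K] F, (((nu h)⁻¹ : ℂ_[p]ˣ) : ℂ_[p]) *
            lgh Lg (tt i) h (un (ε j))) i j) := by
      ext i j
      rw [RingHom.mapMatrix_apply, Matrix.map_apply, Matrix.of_apply, Matrix.of_apply,
        Matrix.of_apply, ← hR i _ (hUε i j), map_sum]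
      refine Finset.sum_congr rfl fun g _ => ?_
      rw [map_mul, hσ']
      congr 1
      exact (σ.commutes _).symm
    rw [hmat, ← RingHom.map_det, Matrix.det_mul_column]
    have h3 : (∏ i, R i) * (Matrix.of fun i j : B ↦ ∑ h : F ≃ₐ[K] F,
        (((nu h)⁻¹ : ℂ_[p]ˣ) : ℂ_[p]) * lgh Lg (tt i) h (un (ε j))).det ≠ 0 :=
      mul_ne_zero (Finset.prod_ne_zero_iff.2 fun i _ => hR0 i) hε
    exact fun h4 => h3 ((map_eq_zero_iff (σ : ℂ_[p] →+* ℂ_[p]) σ.injective).1 h4))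
  -- constants
  obtain ⟨C', hC'⟩ : ∃ C' : ℕ, ∀ i, C i ≤ C' :=
    ⟨∑ i, C i, fun i => Finset.single_le_sum (fun _ _ => Nat.zero_le _) (Finset.mem_univ i)⟩
  have hbd' : ∀ i x, UAt K (tt i) x → ∀ g, ‖f i x g‖ ≤ (p : ℝ) ^ C' := fun i x hx g =>
    (hbd i x hx g).trans (pow_le_pow_right₀ hp1.le (hC' i))
  obtain ⟨D, hD'⟩ : ∃ D : ℕ, ∀ i g h, ‖cc i g h‖ ≤ (p : ℝ) ^ D := by
    obtain ⟨D, hD1⟩ := pow_unbounded_of_one_lt (∑ q : B × (F ≃ₐ[K] F) × (F ≃ₐ[K] F),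
      ‖cc q.1 q.2.1 q.2.2‖) hp1
    refine ⟨D, fun i g h => le_trans ?_ hD1.le⟩
    exact Finset.single_le_sum (f := fun q : B × (F ≃ₐ[K] F) × (F ≃ₐ[K] F) =>
      ‖cc q.1 q.2.1 q.2.2‖) (fun _ _ => norm_nonneg _) (Finset.mem_univ (i, g, h))
  refine ⟨b₁ + C', fun x hxB N M₀ => ?_⟩
  have hUx : ∀ i, UAt K (tt i) x := by
    intro i h
    refine hxB ((tt i).comp (h : F →+* F)) ?_
    show ((tt i).comp (h : F →+* F)).comp (algebraMap K F) ∈ B
    have h3 : ((tt i).comp (h : F →+* F)).comp (algebraMap K F) = i := by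
      rw [← htt i]
      ext y
      show tt i (h (algebraMap K F y)) = tt i (algebraMap K F y)
      rw [h.commutes]
    rw [h3]
    exact i.2
  have hnp : ∀ n : ℕ, ‖(p : ℚ_[p]) ^ n‖ = ((p : ℝ)⁻¹) ^ n := fun n => by
    rw [norm_pow, Padic.norm_p]
  obtain ⟨α, hα⟩ := hb₁ (fun i g => ⟨(p : ℚ_[p]) ^ C' * f i x g, by
    rw [norm_mul, hnp]
    calc ((p : ℝ)⁻¹) ^ C' * ‖f i x g‖ ≤ ((p : ℝ)⁻¹) ^ C' * (p : ℝ) ^ C' :=
          mul_le_mul_of_nonneg_left (hbd' i x (hUx i) g) (by positivity)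
      _ = 1 := by rw [← mul_pow, inv_mul_cancel₀ hp0.ne', one_pow]⟩)
  have hα' : ∀ (i : B) (g : F ≃ₐ[K] F), (p : ℚ_[p]) ^ (b₁ + C') * ∑ h, ((e h : ℤ_[p]) : ℚ_[p]) *
      f i x (h⁻¹ * g) = ∑ q : B × (F ≃ₐ[K] F), ((α q.1 q.2 : ℤ_[p]) : ℚ_[p]) *
        f i (un (ε q.1)) (q.2⁻¹ * g) := by
    intro i g
    rw [Fintype.sum_prod_type, ← hα i g, pow_add, mul_assoc]
    congr 1
    rw [Finset.mul_sum]
    refine Finset.sum_congr rfl fun h _ => ?_
    show _ = ((e h : ℤ_[p]) : ℚ_[p]) * ((p : ℚ_[p]) ^ C' * f i x (h⁻¹ * g))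
    ring
  obtain ⟨M, hM⟩ : ∃ M : ℕ, M = M₀ + N + C' + D := ⟨_, rfl⟩
  obtain ⟨u, hu⟩ := exists_un (K := K) (Finset.univ : Finset (B × (F ≃ₐ[K] F)))
    (fun q => q.2) (fun q => ε q.1) (fun q => -((PadicInt.appr (α q.1 q.2) M : ℕ) : ℤ))
  refine ⟨fun h => ((PadicInt.appr (e h) M : ℕ) : ℤ), u, fun h => ?_, fun τ hτ => ?_⟩
  · have h1 := PadicInt.appr_spec M (e h)
    rw [Ideal.mem_span_singleton] at h1
    have h2 : ((((PadicInt.appr (e h) M : ℕ) : ℤ) : ℤ_[p])) - e h =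
        -(e h - (PadicInt.appr (e h) M : ℕ)) := by push_cast; ring
    rw [h2, dvd_neg]
    exact (pow_dvd_pow _ (by omega)).trans h1
  · obtain ⟨h, hh⟩ := Pool.Agent.Helper32.SD.J_DET.exists_gal (K := K) (tt ⟨_, hτ⟩) τ (htt ⟨_, hτ⟩)
    set i : B := ⟨_, hτ⟩ with hi
    obtain ⟨z, hz⟩ : ∃ z : Fˣ, z = (∏ h : F ≃ₐ[K] F, (hx h x) ^ ((p : ℤ) ^ (b₁ + C') *
      ((PadicInt.appr (e h) M : ℕ) : ℤ))) * un u := ⟨_, rfl⟩
    have hLg : Lg.toFun (Units.map (τ : F →* ℂ_[p]) z) = lgh Lg (tt i) h z := by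
      rw [hh]
      rfl
    rw [← hz, hLg]
    have hxP : ∀ k : F ≃ₐ[K] F, hx k x ∈ PU K (tt i) := fun k =>
      Pool.Agent.Helper66.SD.J_F.UAt_hx (hUx i) k
    have heP : ∀ q : B × (F ≃ₐ[K] F), hx q.2 (un (ε q.1)) ∈ PU K (tt i) := fun q =>
      Pool.Agent.Helper66.SD.J_F.UAt_hx (hUε i q.1) q.2
    have hz1 : (∏ h : F ≃ₐ[K] F, (hx h x) ^ ((p : ℤ) ^ (b₁ + C') *
      ((PadicInt.appr (e h) M : ℕ) : ℤ))) ∈ PU K (tt i) :=
      Subgroup.prod_mem _ fun k _ => Subgroup.zpow_mem _ (hxP k) _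
    have hz2 : un u ∈ PU K (tt i) := by
      rw [hu]
      exact Subgroup.prod_mem _ fun k _ => Subgroup.zpow_mem _ (heP k) _
    have hzP : UAt K (tt i) z := by
      rw [hz]
      exact (PU K (tt i)).mul_mem hz1 hz2
    have hfz : ∀ g, ‖f i z g‖ ≤ (p : ℝ) ^ C' * ((p : ℝ)⁻¹) ^ M := by
      intro g
      have hadd' : ∀ x ∈ PU K (tt i), ∀ y ∈ PU K (tt i), f i (x * y) g = f i x g + f i y g :=
        fun x hx y hy => hadd i x y hx hy g
      have h5 : f i z g = ∑ k : F ≃ₐ[K] F, (((p : ℤ) ^ (b₁ + C') *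
            ((PadicInt.appr (e k) M : ℕ) : ℤ)) : ℤ) • f i x (k⁻¹ * g) +
          ∑ q : B × (F ≃ₐ[K] F), (-((PadicInt.appr (α q.1 q.2) M : ℕ) : ℤ)) •
            f i (un (ε q.1)) (q.2⁻¹ * g) := by
        rw [hz, hadd' _ hz1 _ hz2, hu, f_prod (PU K (tt i)) (fun y => f i y g) hadd' _ _ hxP,
          f_prod (PU K (tt i)) (fun y => f i y g) hadd' _ _ heP]
        congr 1
        · refine Finset.sum_congr rfl fun k _ => ?_
          rw [heq i x (hUx i)]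
        · refine Finset.sum_congr rfl fun q _ => ?_
          rw [heq i _ (hUε i q.1)]
      have h6 : f i z g = ∑ k : F ≃ₐ[K] F, (p : ℚ_[p]) ^ (b₁ + C') *
            ((((PadicInt.appr (e k) M : ℕ) : ℤ) : ℚ_[p]) - (e k : ℚ_[p])) * f i x (k⁻¹ * g) -
          ∑ q : B × (F ≃ₐ[K] F), ((((PadicInt.appr (α q.1 q.2) M : ℕ) : ℤ) : ℚ_[p]) -
            (α q.1 q.2 : ℚ_[p])) * f i (un (ε q.1)) (q.2⁻¹ * g) := by
        have h7 := hα' i g
        rw [Finset.mul_sum] at h7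
        rw [h5]
        simp only [mul_sub, sub_mul, Finset.sum_sub_distrib, zsmul_eq_mul]
        have h8 : ∑ k : F ≃ₐ[K] F, (p : ℚ_[p]) ^ (b₁ + C') * (e k : ℚ_[p]) * f i x (k⁻¹ * g) =
            ∑ q : B × (F ≃ₐ[K] F), (α q.1 q.2 : ℚ_[p]) * f i (un (ε q.1)) (q.2⁻¹ * g) := by
          rw [← h7]
          refine Finset.sum_congr rfl fun k _ => ?_
          ring
        rw [h8]
        push_cast
        simp only [neg_mul, Finset.sum_neg_distrib]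
        ring
      rw [h6]
      have h9 : (0 : ℝ) ≤ (p : ℝ) ^ C' * ((p : ℝ)⁻¹) ^ M := by positivity
      rw [sub_eq_add_neg]
      refine (IsUltrametricDist.norm_add_le_max _ _).trans (max_le ?_ ?_)
      · refine IsUltrametricDist.norm_sum_le_of_forall_le_of_nonneg h9 fun k _ => ?_
        rw [norm_mul, norm_mul, hnp]
        have h10 : ((p : ℝ)⁻¹) ^ (b₁ + C') ≤ 1 :=
          pow_le_one₀ (by positivity) (inv_le_one_of_one_le₀ hp1.le)
        have h11 := appr_norm (e k) M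
        have h12 := hbd' i x (hUx i) (k⁻¹ * g)
        calc ((p : ℝ)⁻¹) ^ (b₁ + C') *
              ‖(((PadicInt.appr (e k) M : ℕ) : ℤ) : ℚ_[p]) - (e k : ℚ_[p])‖ * ‖f i x (k⁻¹ * g)‖
            ≤ 1 * ((p : ℝ)⁻¹) ^ M * (p : ℝ) ^ C' := by gcongr
          _ = (p : ℝ) ^ C' * ((p : ℝ)⁻¹) ^ M := by ring
      · rw [norm_neg]
        refine IsUltrametricDist.norm_sum_le_of_forall_le_of_nonneg h9 fun q _ => ?_
        rw [norm_mul, mul_comm ((p : ℝ) ^ C')]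
        exact mul_le_mul (appr_norm _ _) (hbd' i _ (hUε i q.1) _) (norm_nonneg _) (by positivity)
    rw [hlg i z hzP h]
    refine IsUltrametricDist.norm_sum_le_of_forall_le_of_nonneg (by positivity) fun g _ => ?_
    rw [norm_mul, norm_algebraMap']
    calc ‖f i z g‖ * ‖cc i g h‖ ≤ ((p : ℝ) ^ C' * ((p : ℝ)⁻¹) ^ M) * (p : ℝ) ^ D :=
          mul_le_mul (hfz g) (hD' i g h) (norm_nonneg _) (by positivity)
      _ = ((p : ℝ)⁻¹) ^ M₀ * (1 / p : ℝ) ^ N := by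
          have h13 : (p : ℝ) ^ C' * ((p : ℝ)⁻¹) ^ C' = 1 := by
            rw [← mul_pow, mul_inv_cancel₀ hp0.ne', one_pow]
          have h14 : (p : ℝ) ^ D * ((p : ℝ)⁻¹) ^ D = 1 := by
            rw [← mul_pow, mul_inv_cancel₀ hp0.ne', one_pow]
          rw [hM, pow_add, pow_add, pow_add, one_div]
          calc (p : ℝ) ^ C' * (((p : ℝ)⁻¹) ^ M₀ * ((p : ℝ)⁻¹) ^ N * ((p : ℝ)⁻¹) ^ C' *
                ((p : ℝ)⁻¹) ^ D) * (p : ℝ) ^ D
              = ((p : ℝ)⁻¹) ^ M₀ * ((p : ℝ)⁻¹) ^ N * ((p : ℝ) ^ C' * ((p : ℝ)⁻¹) ^ C') *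
                ((p : ℝ) ^ D * ((p : ℝ)⁻¹) ^ D) := by ring
            _ = _ := by rw [h13, h14, mul_one, mul_one]
      _ ≤ 1 * (1 / p : ℝ) ^ N := by
          refine mul_le_mul_of_nonneg_right ?_ (by positivity)
          exact pow_le_one₀ (by positivity) (inv_le_one_of_one_le₀ hp1.le)
      _ = (1 / p : ℝ) ^ N := one_mul _

end Pool.Agent.Helper35.SD.J_SML
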