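import Pool.Agent.Helper16.SD.GoalsS

/-!
# Project SD (MP_fc6b1e_nt), packet SD-ST: the structure theorem from averaging, halving and pairing
-/

set_option autoImplicit false

namespace Pool.Agent.Helper35.SD.ST

open Module Pool.Agent.Helper16.SD

section

variable {E I Γ : Type} [Field E] [Group Γ] [MulAction Γ I] {m : Γ → I → Eˣ}

theorem coc_one (hm : IsCoc m) (i : I) : m 1 i = 1 := by
  have h := hm 1 1 i
  rw [mul_one, one_smul] at h
  exact (left_eq_mul.1 h)

theorem rho_one (hm : IsCoc m) (v : I → E) : rho m 1 v = v := by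
  funext i
  show ((m 1 ((1 : Γ)⁻¹ • i) : Eˣ) : E) * v ((1 : Γ)⁻¹ • i) = v i
  rw [inv_one, one_smul, coc_one hm, Units.val_one, one_mul]

theorem rho_mul (hm : IsCoc m) (γ δ : Γ) (v : I → E) :
    rho m γ (rho m δ v) = rho m (γ * δ) v := by
  funext i
  show ((m γ (γ⁻¹ • i) : Eˣ) : E) * (((m δ (δ⁻¹ • (γ⁻¹ • i)) : Eˣ) : E) *
    v (δ⁻¹ • (γ⁻¹ • i))) = ((m (γ * δ) ((γ * δ)⁻¹ • i) : Eˣ) : E) * v ((γ * δ)⁻¹ • i)
  have h1 : (γ * δ)⁻¹ • i = δ⁻¹ • (γ⁻¹ • i) := by rw [mul_inv_rev, mul_smul]
  rw [h1, hm γ δ, smul_inv_smul, Units.val_mul, mul_assoc]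

end

theorem t (hA : ST_AVG) (hH : ST_HALF) (hP : ST_PAIR) : Pool.Agent.Helper16.SD.ST := by
  intro E I Γ _ _ _ _ _ _ m hm htr c hc hg ε d α hI hz A C hC
  set S : Set (I → E) := {w : I → E | ∃ γ, ∃ v ∈ C, w = rho m γ v} with hS
  set V : Submodule E (I → E) := Submodule.span E S with hV
  have hstab : ∀ γ, ∀ v ∈ V, rho m γ v ∈ V := by
    intro γ v hv
    induction hv using Submodule.span_induction with
    | mem x hx =>
      obtain ⟨δ, w, hw, rfl⟩ := hx
      rw [rho_mul hm]
      exact Submodule.subset_span ⟨γ * δ, w, hw, rfl⟩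
    | zero =>
      rw [map_zero]
      exact V.zero_mem
    | add x y _ _ hx hy =>
      rw [map_add]
      exact V.add_mem hx hy
    | smul a x _ hx =>
      rw [map_smul]
      exact V.smul_mem a hx
  have hCV : C ≤ V := by
    intro v hv
    exact Submodule.subset_span ⟨1, v, hv, (rho_one hm v).symm⟩
  have hann : annA ε α S = annA ε α (V : Set (I → E)) := by
    apply le_antisymm
    · intro x hx v hv
      have hx' : ∀ v ∈ S, ∑ r, ∑ i, ε (x r) * ε (v i) * α r i = 0 := hx
      change v ∈ V at hv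
      induction hv using Submodule.span_induction with
      | mem w hw => exact hx' w hw
      | zero => simp
      | add a b _ _ ha hb =>
        simp only [Pi.add_apply, map_add, mul_add, add_mul, Finset.sum_add_distrib, ha, hb,
          add_zero]
      | smul a w _ hw =>
        have h1 : ∀ r i, ε (x r) * ε ((a • w) i) * α r i =
            ε a * (ε (x r) * ε (w i) * α r i) := by
          intro r i
          rw [Pi.smul_apply, smul_eq_mul, map_mul]
          ring
        simp only [h1, ← Finset.mul_sum, hw, mul_zero]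
    · intro x hx v hv
      exact hx v (Submodule.subset_span hv)
  rw [hann]
  have h1 : finrank E C ≤ finrank E (V ⊓ supp E A : Submodule E (I → E)) :=
    Submodule.finrank_mono (le_inf hCV hC)
  have h2 := hA E I Γ m hm htr V hstab A
  have h3 := hH E I Γ m hm c hc hg V hstab
  have h4 := hP E I Γ m c hc ε d α hz V
  rw [hI, h3] at h2
  have h5 : finrank E (V ⊓ fixL (rho m c) : Submodule E (I → E)) ≤
      d - finrank E (annA ε α (V : Set (I → E))) := by omega
  have h6 := Nat.mul_le_mul_left A.card h5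
  have h7 := Nat.mul_le_mul_left (2 * d) h1
  have h8 : 2 * (d * finrank E C) ≤
      2 * (A.card * finrank E (V ⊓ fixL (rho m c) : Submodule E (I → E))) := by
    calc 2 * (d * finrank E C) = 2 * d * finrank E C := by ring
      _ ≤ 2 * d * finrank E (V ⊓ supp E A : Submodule E (I → E)) := h7
      _ ≤ A.card * (2 * finrank E (V ⊓ fixL (rho m c) : Submodule E (I → E))) := h2
      _ = 2 * (A.card * finrank E (V ⊓ fixL (rho m c) : Submodule E (I → E))) := by ring
  exact (Nat.le_of_mul_le_mul_left h8 (by norm_num)).trans h6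

end Pool.Agent.Helper35.SD.ST
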